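import Mathlib
import Pool.Agent.Helper951.FrF
import Pool.Agent.Y804.SF.Stab

/-!
# Friendship-free graphs of large spectral radius: a characterisation by the defect of a clique

Let `k ≥ 3` and let `G` be an `F_{k,3}`-free graph with `m ≥ (100 k^4)^2 + k^2 + k` edges without
isolated vertices and spectral radius `λ`. For every natural number `z ≤ k^2 / 4` the inequality
`λ^2 - (k - 1) λ ≥ m - k (k - 1) / 2 - z / k` holds if and only if `G` has a clique `L` with `k`
vertices of defect at most `z`; the defect of `L` is the sum of `j (k - j)` over the vertices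
outside `L`, `j` being the number of neighbours in `L`, plus `k` times the number of edges outside
`L`. For `z = l (k - l)` this gives the extremal graph in the non-divisible case, with an explicit
bound on `m` and an explicit gap between the extremal graph and all other graphs.
-/

set_option autoImplicit false

namespace Pool.Agent.Results.MP_f3e379_co.DefectStability

open Finset Pool.Agent.Helper951.Defs Pool.Agent.Helper951.Spec Pool.Agent.Helper951.FrB
open Pool.Agent.Helper951.Core Pool.Agent.Helper951.FrC Pool.Agent.Helper951.FrD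
open Pool.Agent.Helper951.FrA Pool.Agent.Helper951.FrE Pool.Agent.Helper951.FrF
open Pool.Agent.Y804.SF

/-- A friendship-free graph of large spectral radius has a clique of small defect. -/
lemma main_stab (k m z : ℕ) (hk : 3 ≤ k) (hz : 4 * z ≤ k ^ 2)
    (hm : (100 * k ^ 4) ^ 2 + k ^ 2 + k ≤ m)
    {V : Type} [Fintype V] [DecidableEq V] (G : SimpleGraph V) [DecidableRel G.Adj]
    (hG : G.edgeFinset.card = m) (hfree : ¬ (friendship k).IsContained G)
    (hge : (m : ℝ) - k * (k - 1) / 2 - z / k ≤ specRad G ^ 2 - (k - 1) * specRad G) :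
    ∃ L : Finset V, L.card = k ∧ (∀ a ∈ L, ∀ b ∈ L, a ≠ b → G.Adj a b) ∧ DD G k L ≤ z := by
  obtain ⟨K, hKdef⟩ : ∃ K : ℝ, K = k := ⟨_, rfl⟩
  have hK : (3 : ℝ) ≤ K := by rw [hKdef]; exact_mod_cast hk
  have hne : Nonempty V := by
    by_contra hcon
    rw [not_nonempty_iff] at hcon
    have h1 : G.edgeFinset.card = 0 := by
      rw [Finset.card_eq_zero, Finset.eq_empty_iff_forall_notMem]
      intro e
      induction e with
      | _ a b => exact (IsEmpty.false a).elim
    have h2 : 0 < k ^ 2 := by positivity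
    omega
  obtain ⟨x, u, h⟩ := exists_sit G
  set lam := specRad G with hlamdef
  obtain ⟨c0, hc0def⟩ : ∃ c0 : ℝ, c0 = (z : ℝ) / K := ⟨_, rfl⟩
  have hc0K : c0 * K = z := by rw [hc0def]; field_simp
  have hc0 : 0 ≤ c0 := by
    rw [hc0def]
    positivity
  have hc1 : c0 ≤ K / 4 := by
    rw [hc0def, div_le_iff₀ (by linarith)]
    have : (4 * z : ℝ) ≤ K ^ 2 := by rw [hKdef]; exact_mod_cast hz
    nlinarith
  have hmR : (100 * K ^ 4) ^ 2 + K ^ 2 + K ≤ (m : ℝ) := by
    rw [hKdef]; exact_mod_cast hm
  have hmEE : EE G univ univ / 2 = m := by rw [EE_univ_eq, hG]; ring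
  have hlow : EE G univ univ / 2 - K * (K - 1) / 2 - c0 ≤ lam ^ 2 - (K - 1) * lam := by
    rw [hmEE, hc0def, hKdef]
    exact hge
  have hlam0 : 0 ≤ lam := by
    have h1 := h.ev u
    rw [h.xu, mul_one] at h1
    rw [← h1]
    exact Finset.sum_nonneg (fun w _ => mul_nonneg (ad_nonneg G _ _) (h.x0 w))
  have hlam : 100 * K ^ 4 ≤ lam := by
    rw [hmEE] at hlow
    have h1 : 0 ≤ (K - 1) * lam := mul_nonneg (by linarith) (by linarith)
    by_contra hcon
    push Not at hcon
    have h2 : lam ^ 2 < (100 * K ^ 4) ^ 2 := pow_lt_pow_left₀ hcon (by linarith) two_ne_zero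
    nlinarith
  have hlampos : 0 < lam := by
    have : 0 < K ^ 4 := by positivity
    linarith
  have hl1' : 100 * K ≤ lam := by
    have h1 : (1 : ℝ) ≤ K ^ 3 := one_le_pow₀ (by linarith)
    have h2 : K * 1 ≤ K * K ^ 3 := mul_le_mul_of_nonneg_left h1 (by linarith)
    have h3 : K * K ^ 3 = K ^ 4 := by ring
    linarith
  -- the big vertices
  have hcard := big_card_eq h k (by omega) hfree c0 (by rw [← hKdef]; exact hc1)
    (by rw [← hKdef]; exact hlam) (by rw [← hKdef]; exact hlow)
  have hind := rst_indep (G := G) (u := u) k hcard hfree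
  set S := big G k u with hSdef
  have hS : ∀ s ∈ S, G.Adj u s := fun s hs => ((mem_big k s).1 hs).1
  have hcardK : (S.card : ℝ) = K - 1 := by
    have : (S.card : ℝ) + 1 = K := by rw [hKdef]; exact_mod_cast hcard
    linarith
  set T := rst G u S with hT
  set W := far G u with hW
  have hdg : ∀ t ∈ T, dg G T t = 0 := fun t ht =>
    Finset.sum_eq_zero (fun t' ht' => ad_not G _ _ (hind t ht t' ht'))
  have hTT : EE G T T = 0 := Finset.sum_eq_zero hdg
  have hXT : XX G x T T = 0 := by
    rw [XX_self]
    exact Finset.sum_eq_zero (fun t ht => by rw [hdg t ht, zero_mul])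
  have hR := refined h S hS K c0 hcardK hlow (by
    intro s hs
    have h1 := dg_cn (G := G) (u := u) S hS s
    have h2 : 2 * K ≤ ((cn G u s).card : ℝ) := by
      rw [hKdef]; exact_mod_cast ((mem_big k s).1 hs).2
    have h3 := dg_nonneg (G := G) S s
    linarith)
  rw [← hT, ← hW] at hR
  have hR' : ((K - 1) * (K - 2) - EE G S S) / 2 + q1 G x S T + q2 G x S T / 2
      + (q2 G x W S + q2 G x W T) + EE G W W / 2 ≤ K / 4 := by
    rw [hTT, hXT] at hR
    linarith
  have hnh := no_heavy h k hk S hS hcard (fun s I h1 h2 h3 => hfree (friend_greedy G k s I h1 h2 h3))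
    (by rw [← hKdef]; exact hlam) (by rw [← hKdef]; exact hR')
  rw [← hW] at hnh
  -- everything else is light
  have hd1 : 0 ≤ (K - 1) * (K - 2) - EE G S S := by
    have h1 : EE G S S ≤ ∑ s ∈ S, (K - 2) := by
      rw [EE_eq]
      apply Finset.sum_le_sum
      intro s hs
      have := dg_self_le (G := G) S s hs
      linarith
    rw [Finset.sum_const, nsmul_eq_mul, hcardK] at h1
    linarith
  have hq1 := q1_nonneg h S T
  have hq2 := q2_nonneg h S T
  have hWW := EE_nonneg (G := G) W W
  have hWS := EE_nonneg (G := G) W S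
  have hWT := EE_nonneg (G := G) W T
  have hq3 : ∀ B : Finset V, EE G W B / 2 ≤ q2 G x W B := by
    intro B
    rw [q2_dg, EE_eq, Finset.sum_div]
    apply Finset.sum_le_sum
    intro w hw
    have h1 := hnh w hw
    have h2 := dg_nonneg (G := G) B w
    have h3 : dg G B w * (1 / 2) ≤ dg G B w * (1 - x w) :=
      mul_le_mul_of_nonneg_left (by linarith) h2
    linarith
  have h3a := hq3 S
  have h3b := hq3 T
  have hWST : EE G W S + EE G W T ≤ K / 2 := by linarith
  have hWW' : EE G W W ≤ K / 2 := by linarith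
  have hrow : ∀ v, lam * x v ≤ ad G v u + dg G S v + dg G T v + dg G W v := by
    intro v
    rw [← h.ev v, split S hS (fun w => ad G v w * x w), h.xu, mul_one]
    have hle : ∀ (A : Finset V), ∑ w ∈ A, ad G v w * x w ≤ dg G A v := by
      intro A
      apply Finset.sum_le_sum
      intro w _
      exact mul_le_of_le_one_right (ad_nonneg G v w) (h.x1 w)
    have h1 := hle S
    have h2 := hle T
    have h3 := hle W
    linarith
  have hlight : ∀ r, r ≠ u → r ∉ S → x r ≤ 1 / 4 := by
    intro r hru hrS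
    have h1 := hrow r
    have h9 : lam * x r ≤ lam * (1 / 4) := by
      by_cases hur : G.Adj u r
      · have hrT : r ∈ T := (mem_rst _ _).2 ⟨hur, hrS⟩
        have h2 := hdg r hrT
        have h3 := dg_le_EE (G := G) T W r hrT
        rw [EE_comm T W] at h3
        have h4 : ad G r u ≤ 1 := ad_le_one G _ _
        have h5 : dg G S r ≤ K - 1 := by
          rw [← hcardK]
          unfold dg
          calc ∑ w ∈ S, ad G r w ≤ ∑ w ∈ S, (1:ℝ) :=
                Finset.sum_le_sum (fun _ _ => ad_le_one G _ _)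
            _ = S.card := by simp
        linarith
      · have hrW : r ∈ W := (mem_far _).2 ⟨hru, hur⟩
        have h2 := dg_le_EE (G := G) W S r hrW
        have h3 := dg_le_EE (G := G) W T r hrW
        have h4 := dg_le_EE (G := G) W W r hrW
        have h5 : ad G r u = 0 := ad_not G _ _ (fun h' => hur h'.symm)
        linarith
    exact le_of_mul_le_mul_left h9 hlampos
  obtain ⟨hcl, hZ⟩ := core_light h S hS K c0 (by linarith) hcardK hlam hc0 hc1 hlow
    (by rw [← hT, ← hW]; exact hR) hlight
  rw [hc0K] at hZ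
  have huS : u ∉ S := fun hu => (hS u hu).ne rfl
  have hLc : (insert u S).card = k := by rw [Finset.card_insert_of_notMem huS, hcard]
  have hLcl : ∀ a ∈ insert u S, ∀ b ∈ insert u S, a ≠ b → G.Adj a b := by
    intro a ha b hb hab
    rw [Finset.mem_insert] at ha hb
    rcases ha with rfl | ha <;> rcases hb with rfl | hb
    · exact absurd rfl hab
    · exact hS b hb
    · exact (hS a ha).symm
    · exact hcl a ha b hb hab
  refine ⟨insert u S, hLc, hLcl, ?_⟩
  apply DD_le_of_lt k m z (by omega) _ hLc hLcl hG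
  unfold DD
  rw [← hKdef]
  exact hZ


/-- **Stability with the exact defect.** -/
theorem result : ∀ k : ℕ, 3 ≤ k → ∀ m : ℕ, (100 * k ^ 4) ^ 2 + k ^ 2 + k ≤ m →
    ∀ (V : Type) (_ : Fintype V) (G : SimpleGraph V),
      G.edgeSet.ncard = m → (∀ v, ∃ w, G.Adj v w) → ¬ (friendship k).IsContained G →
      (∀ z : ℕ, 4 * z ≤ k ^ 2 →
        ((m : ℝ) - k * (k - 1) / 2 - z / k ≤ specRad G ^ 2 - (k - 1) * specRad G ↔
          ∃ L : Finset V, L.card = k ∧ (∀ a ∈ L, ∀ b ∈ L, a ≠ b → G.Adj a b) ∧
            defect G k L ≤ z)) ∧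
      (∀ l n : ℕ, 1 ≤ l → l ≤ k - 1 → m + k * (k + 1) / 2 ≡ l [MOD k] →
        (n : ℚ) = ((m : ℚ) - l) / k + (k + 3) / 2 →
        specRad G ≤ specRad (S1 n k l) ∧
        (specRad G = specRad (S1 n k l) ↔ Nonempty (G ≃g S1 n k l)) ∧
        (m : ℝ) - k * (k - 1) / 2 - l * (k - l) / k ≤
          specRad (S1 n k l) ^ 2 - (k - 1) * specRad (S1 n k l) ∧
        (IsEmpty (G ≃g S1 n k l) → specRad G ^ 2 - (k - 1) * specRad G <
          (m : ℝ) - k * (k - 1) / 2 - l * (k - l) / k)) := by
  classical
  intro k hk m hm V _ G hG hiso hfree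
  have hG' : G.edgeFinset.card = m := by
    rw [← hG, Set.ncard_eq_toFinset_card']
    rfl
  have hkR : (3 : ℝ) ≤ k := by exact_mod_cast hk
  have hst : ∀ z : ℕ, 4 * z ≤ k ^ 2 →
      (m : ℝ) - k * (k - 1) / 2 - z / k ≤ specRad G ^ 2 - (k - 1) * specRad G →
      ∃ L : Finset V, L.card = k ∧ (∀ a ∈ L, ∀ b ∈ L, a ≠ b → G.Adj a b) ∧ DD G k L ≤ z :=
    fun z hz h => main_stab k m z hk hz hm G hG' hfree h
  have hmk : k ^ 2 + k ≤ m :=
    le_trans (Nat.add_le_add_right (Nat.le_add_left (k ^ 2) _) k) hm
  clear hm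
  refine ⟨?_, ?_⟩
  · intro z hz
    constructor
    · intro h
      obtain ⟨L, h1, h2, h3⟩ := hst z hz h
      exact ⟨L, h1, h2, by rw [defect_eq]; exact h3⟩
    · rintro ⟨L, h1, h2, h3⟩
      rw [defect_eq] at h3
      refine le_trans ?_ (clique_lower k m (by omega) L h1 h2 hG')
      have : DD G k L / k ≤ z / k := div_le_div_of_nonneg_right h3 (by linarith)
      linarith
  · intro l n hl1 hl hmod hn
    have hlk : l < k := by omega
    have hlR : (l : ℝ) + 1 ≤ k := by exact_mod_cast hlk
    have hl1R : (1 : ℝ) ≤ l := by exact_mod_cast hl1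
    have hzc : ((l * (k - l) : ℕ) : ℝ) = l * (k - l) := by
      rw [Nat.cast_mul, Nat.cast_sub hlk.le]
    -- the main step
    have key : (m : ℝ) - k * (k - 1) / 2 - l * (k - l) / k ≤
        specRad G ^ 2 - (k - 1) * specRad G → Nonempty (G ≃g S1 n k l) := by
      intro hge
      have hz : 4 * (l * (k - l)) ≤ k ^ 2 := by
        obtain ⟨t, rfl⟩ := Nat.exists_eq_add_of_lt hlk
        have e1 : l + t + 1 - l = t + 1 := by omega
        rw [e1]
        zify
        nlinarith [sq_nonneg ((l : ℤ) - (t + 1))]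
      obtain ⟨L, h1, h2, h3⟩ := hst (l * (k - l)) hz (by rw [hzc]; exact hge)
      apply finish G k l m n hl1 hlk hG' hiso L h1 h2 hmod hn
      rw [hzc] at h3
      unfold DD at h3
      linarith
    -- the lower bound for the extremal graph
    obtain ⟨hθ1, hθ2⟩ := S1_low n k l hl1 hlk
    have hnR : (n : ℝ) = ((m : ℝ) - l) / k + (k + 3) / 2 := by
      have := congrArg (fun q : ℚ => (q : ℝ)) hn
      push_cast at this
      exact this
    have hmR : (k : ℝ) ^ 2 + k ≤ (m : ℝ) := by exact_mod_cast hmk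
    have hnk : (k : ℝ) + 1 ≤ (n : ℝ) := by
      have h1 : (k : ℝ) ≤ ((m : ℝ) - l) / k := by
        rw [le_div_iff₀ (by linarith)]
        nlinarith
      linarith
    have ht : ((n - k - 1 : ℕ) : ℝ) = n - k - 1 := by
      have h1 : k + 1 ≤ n := by exact_mod_cast hnk
      rw [Nat.sub_sub, Nat.cast_sub h1]
      push_cast
      ring
    have hkt : (k : ℝ) * ((n - k - 1 : ℕ) : ℝ) = m - l - k * (k - 1) / 2 := by
      rw [ht, hnR]
      field_simp
      ring
    have hS : (m : ℝ) - k * (k - 1) / 2 - l * (k - l) / k ≤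
        specRad (S1 n k l) ^ 2 - (k - 1) * specRad (S1 n k l) := by
      rw [hkt] at hθ2
      have h2 : (l : ℝ) * (k - l) / k = l - (l : ℝ) ^ 2 / k := by
        field_simp
      rw [h2]
      linarith
    have hgap : IsEmpty (G ≃g S1 n k l) → specRad G ^ 2 - (k - 1) * specRad G <
        (m : ℝ) - k * (k - 1) / 2 - l * (k - l) / k := by
      intro h
      by_contra hcon
      push Not at hcon
      obtain ⟨e⟩ := key hcon
      exact h.false e
    have hmono : specRad (S1 n k l) ≤ specRad G → Nonempty (G ≃g S1 n k l) := by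
      intro h
      apply key
      refine hS.trans ?_
      have h1 : 0 ≤ (specRad G - specRad (S1 n k l)) *
          (specRad G + specRad (S1 n k l) - (k - 1)) := mul_nonneg (by linarith) (by linarith)
      linarith
    have hVne : Nonempty V := by
      by_contra hcon
      rw [not_nonempty_iff] at hcon
      have h1 : G.edgeFinset.card = 0 := by
        rw [Finset.card_eq_zero, Finset.eq_empty_iff_forall_notMem]
        intro e
        induction e with
        | _ a b => exact (IsEmpty.false a).elim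
      have h2 : 0 < k ^ 2 := by positivity
      omega
    have hSne : Nonempty (Fin l ⊕ ((Fin (k - l) ⊕ Fin (n - k - 1)) ⊕ Fin 1)) :=
      ⟨Sum.inr (Sum.inr 0)⟩
    have hiso_eq : Nonempty (G ≃g S1 n k l) → specRad G = specRad (S1 n k l) := by
      rintro ⟨e⟩
      exact specRad_iso G (S1 n k l) e
    refine ⟨?_, ⟨fun h => hmono h.ge, hiso_eq⟩, hS, hgap⟩
    rcases le_total (specRad G) (specRad (S1 n k l)) with h | h
    · exact h
    · exact (hiso_eq (hmono h)).le

end Pool.Agent.Results.MP_f3e379_co.DefectStability
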